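import Pool.Agent.V1149.OP3.Cases

/-!
`OP(3, s, s)` has a solution for every `s ≥ 3`.

The solutions: for odd `s`, two copies of `ℤ_s` and three fixed points; for `s ≡ 2 mod 4`, `ℤ_(2s)`
and three fixed points; for `4 ∣ s`, `ℤ_(2s+2)` and one fixed point.
-/

namespace Pool.Agent.Results.MP_633541_co.TriangleAndTwoCycles

open SimpleGraph

/-- For every integer `s ≥ 3` there are `s + 1` graphs on `2 s + 3` vertices, each of them a
disjoint union of a triangle and two cycles of length `s`, such that any two different vertices are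
adjacent in exactly one of the graphs. -/
theorem result : ∀ s : ℕ, 3 ≤ s → ∃ F : Fin (s + 1) → SimpleGraph (Fin (2 * s + 3)),
    (∀ i, Nonempty (F i ≃g (cycleGraph 3 ⊕g (cycleGraph s ⊕g cycleGraph s)))) ∧
      ∀ u v, u ≠ v → ∃! i, (F i).Adj u v :=
  fun s hs => Pool.Agent.V1149.OP3.all_cases s hs

end Pool.Agent.Results.MP_633541_co.TriangleAndTwoCycles
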